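import Mathlib
import Pool.Agent.Lib.MP_b7ec12_an.Ins.Final2

set_option autoImplicit false
open MeasureTheory

namespace Pool.Agent.Results.MP_b7ec12_an.SharpExponents

open Pool.Agent.Lib.B7ins

/-- Time dependent maps from the plane to the plane, `g t x`. -/
abbrev Fld : Type := ℝ → (Fin 2 → ℝ) → (Fin 2 → ℝ)

/-- `g` is `ℤ²`-periodic in space, that is, a map on `ℝ × 𝕋²`. -/
def Per (g : Fld) : Prop :=
  ∀ (t : ℝ) (x : Fin 2 → ℝ) (k : Fin 2 → ℤ), g t (x + (fun i => (k i : ℝ))) = g t x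

/-- The half-open unit square `[0,1)²`, a fundamental domain of the torus. -/
def Sq : Set (Fin 2 → ℝ) := Set.pi Set.univ fun _ : Fin 2 => Set.Ico (0:ℝ) 1

/-- `g` is in `L^s ((0,T) × [-R,R]²)` for every `R`; for periodic `g` this is `L^s ((0,T) × 𝕋²)`. -/
def InL {E : Type} [NormedAddCommGroup E] (s T : ℝ) (g : ℝ → (Fin 2 → ℝ) → E) : Prop :=
  ∀ R : ℝ, MemLp (Function.uncurry g) (ENNReal.ofReal s)
    (volume.restrict (Set.Ioo (0:ℝ) T ×ˢ Metric.closedBall (0 : Fin 2 → ℝ) R))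

/-- `X` is a measure preserving flow of `b` on `[0,T]`, defined for EVERY starting point: `X` is
Borel and descends to the torus, for every `x` the curve `t ↦ X_t x` starts in `x` and
`X_t x = x + ∫_0^t b_s (X_s x) ds` with an integrable integrand, and `X_t` modulo `ℤ²` preserves the
Lebesgue measure of the torus. -/
def IsFlow (T : ℝ) (b X : Fld) : Prop :=
  Measurable (Function.uncurry X) ∧
  (∀ (t : ℝ) (x : Fin 2 → ℝ) (k : Fin 2 → ℤ),
    X t (x + (fun i => (k i : ℝ))) = X t x + (fun i => (k i : ℝ))) ∧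
  (∀ x : Fin 2 → ℝ, X 0 x = x ∧ IntegrableOn (fun t => b t (X t x)) (Set.Icc 0 T) ∧
    ∀ t ∈ Set.Icc (0:ℝ) T, X t x = x + ∫ s in (0:ℝ)..t, b s (X s x)) ∧
  ∀ t ∈ Set.Icc (0:ℝ) T,
    Measure.map (fun x i => Int.fract (X t x i)) (volume.restrict Sq) = volume.restrict Sq

/-- `ft` is the weak derivative of `f` in time and `Df t x j` the weak derivative in the direction of
the `j`-th coordinate of space. -/
def WeakDer (f ft : Fld) (Df : ℝ → (Fin 2 → ℝ) → Fin 2 → (Fin 2 → ℝ)) : Prop :=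
  ∀ φ : ℝ × (Fin 2 → ℝ) → ℝ, ContDiff ℝ 1 φ → HasCompactSupport φ →
    ((∫ y, fderiv ℝ φ y ((1:ℝ), (0 : Fin 2 → ℝ)) • f y.1 y.2) = - ∫ y, φ y • ft y.1 y.2) ∧
    ∀ j : Fin 2,
      (∫ y, fderiv ℝ φ y ((0:ℝ), (Pi.single j (1:ℝ) : Fin 2 → ℝ)) • f y.1 y.2)
        = - ∫ y, φ y • Df y.1 y.2 j

/-- The curve `c` is absolutely continuous on `[0,T]`: it is `c 0` plus the integral of an integrable
function. -/
def IsAC (T : ℝ) (c : ℝ → (Fin 2 → ℝ)) : Prop :=
  ∃ g : ℝ → (Fin 2 → ℝ), IntegrableOn g (Set.Icc (0:ℝ) T) ∧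
    ∀ t ∈ Set.Icc (0:ℝ) T, c t = c 0 + ∫ s in (0:ℝ)..t, g s

/-- **The dual exponents are sharp, and failure occurs along every trajectory.**
Let `1 ≤ p`, `1 ≤ q` with `1/p + 1/q > 1` and let `T > 0`.  There are a Borel vector field `b` on
`[0,T] × 𝕋²` in `L^p`, a flow `X` of `b` for EVERY starting point which preserves the Lebesgue measure
of the torus, and a continuous `f` on `[0,T] × 𝕋²` with weak derivatives `ft`, `Df` in `L^q`, such
that `ft` is bounded, `(∇f) b = 0` everywhere (so `w = ∂_t f + (∇f) b` is bounded), and such that for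
EVERY `x` the function `t ↦ f (t, X_t x)` is not absolutely continuous on `[0,T]`. -/
theorem result (p q : ℝ) (hp : 1 ≤ p) (hq : 1 ≤ q) (hpq : 1 < 1 / p + 1 / q) (T : ℝ) (hT : 0 < T) :
    ∃ (b X f ft : Fld) (Df : ℝ → (Fin 2 → ℝ) → Fin 2 → (Fin 2 → ℝ)),
      Measurable (Function.uncurry b) ∧ Per b ∧ InL p T b ∧ IsFlow T b X ∧
      Continuous (Function.uncurry f) ∧ Per f ∧
      Measurable (Function.uncurry ft) ∧ Measurable (Function.uncurry Df) ∧
      InL q T ft ∧ InL q T Df ∧ WeakDer f ft Df ∧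
      (∃ M : ℝ, ∀ t x, ‖ft t x‖ ≤ M) ∧
      (∀ t x, ∑ j : Fin 2, b t x j • Df t x j = 0) ∧
      ∀ x : Fin 2 → ℝ, ¬ IsAC T (fun t => f t (X t x)) := by
  obtain ⟨a, D, e, hD, he, hD0, hD1, he0, he0', h1, h2⟩ := exists_par p q hp hq hpq
  obtain ⟨N, v, hv⟩ := a.exists_cover
  obtain ⟨i0, -⟩ := hv (0, 0)
  have hN : 0 < N := Nat.pos_of_ne_zero (fun h => by subst h; exact i0.elim0)
  have hN' : (0:ℝ) < N := by exact_mod_cast hN
  have hh : 0 < T / (3 * N) := by positivity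
  have hTh : 3 * (N:ℝ) * (T / (3 * N)) = T := by field_simp
  refine ⟨Bf a N v (T / (3 * N)), Xf a N v (T / (3 * N)), Ff a N v (T / (3 * N)),
    Ftf a N v (T / (3 * N)), DFf a N v (T / (3 * N)), Bf_meas a N v _, Bf_per a N v _,
    fun R => memLp_B a N v _ hh D e p hD he he0 hp h1 T R,
    ⟨Xf_meas a N v _, Xf_per a N v _, fun x => traj_ok a N v _ hh T hT.le x,
      fun t _ => mp_ok a N v _ hh i0 t⟩,
    Ff_cont a N v _, Ff_per a N v _, Ftf_meas a N v _, DFf_meas a N v _,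
    fun R => memLp_Ft a N v _ hh q hq T R,
    fun R => memLp_DF a N v _ D e q hD he hD0 hD1 hq h2 T R,
    fun φ hφ hc => weak_ok a N v _ hh φ hφ hc D e hD he hD0 hD1 he0', Ftf_bdd a N v _ hh,
    BD_zero a N v _ hh, fun x => ?_⟩
  obtain ⟨i, hi⟩ := hv (x 0, x 1)
  exact not_ac_vec a N v _ hh T hTh x i hi

end Pool.Agent.Results.MP_b7ec12_an.SharpExponents
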